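import Pool.Agent.helper84.VN.Spec4m

/-!
# MP_07c750_an, project VN, row DN4 (domination of one big step by the flow with noise)
-/

set_option autoImplicit false

open scoped MatrixGroups ContDiff Topology UpperHalfPlane ComplexConjugate ENNReal
open UpperHalfPlane MeasureTheory Filter Set

namespace Pool.Agent.VN

open Pool.Agent.RS Pool.Agent.VQ
open Pool.Agent.VQE (nm)

noncomputable section

/-! ## Monotonicity in the constants -/

theorem DN4_adm {C C' : ℝ} {A : Prm} (h : Adm C A) (h0 : 0 ≤ C') (hC : C' ≤ C) : Adm C' A ∧ 0 < A.e3 ∧ 0 ≤ A.z ∧ 0 ≤ A.z1 ∧ 0 ≤ A.z2 := by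
  have h1 := h.e3
  have hz : 0 ≤ A.z := le_trans (mul_nonneg (h0.trans hC) h1.le) h.z
  have hz1 : 0 ≤ A.z1 := le_trans (mul_nonneg (h0.trans hC) hz) h.z1
  have hz2 : 0 ≤ A.z2 := le_trans (mul_nonneg (h0.trans hC) hz1) h.z2
  refine ⟨⟨h1, h.m, ?_, ?_, ?_, ?_, h.tu⟩, h1, hz, hz1, hz2⟩
  · exact (mul_le_mul_of_nonneg_right hC h1.le).trans h.z
  · exact (mul_le_mul_of_nonneg_right hC hz).trans h.z1
  · exact (mul_le_mul_of_nonneg_right hC hz1).trans h.z2
  · exact (mul_le_mul_of_nonneg_right hC (mul_nonneg (Nat.cast_nonneg _) hz2)).trans h.up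

theorem DN4_ngM (h : SL(2, ℝ)) : ngM * h = -h := by
  apply Subtype.ext
  change (!![-1, 0; 0, -1] : Matrix (Fin 2) (Fin 2) ℝ) * h.1 = -h.1
  ext i j
  fin_cases i <;> fin_cases j <;> simp [Matrix.mul_apply, Fin.sum_univ_two]

theorem DN4_ngM2 (h : SL(2, ℝ)) : ngM * (ngM * h) = h := by
  rw [DN4_ngM, DN4_ngM, neg_neg]

/-! ## The integral over the thin set -/

/-- the thin set -/
def DN4_S (r : ℝ) (y : ℝ → ℝ → SL(2, ℝ)) (g : SL(2, ℝ)) : Set SL(2, ℝ) :=
  {h | ∃ u ∈ Icc (-r) r, ∃ s ∈ Icc (-r) r, ∃ η ∈ Icc (-r) r, h = g * y u s * kM η}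

theorem DN4_meas (r : ℝ) (y : ℝ → ℝ → SL(2, ℝ)) (g : SL(2, ℝ)) (hy : Continuous (fun p : ℝ × ℝ => y p.1 p.2)) : MeasurableSet (DN4_S r y g) := by
  have hkM : Continuous kM := A_GLC.2.2.2.2.2.2.1
  have hy' : Continuous (fun o : ℝ × ℝ × ℝ => y o.1 o.2.1) := hy.comp (continuous_fst.prodMk (continuous_fst.comp continuous_snd))
  have hc : Continuous (fun o : ℝ × ℝ × ℝ => g * y o.1 o.2.1 * kM o.2.2) :=
    (continuous_const.mul hy').mul (hkM.comp (continuous_snd.comp continuous_snd))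
  have h1 : DN4_S r y g = (fun o : ℝ × ℝ × ℝ => g * y o.1 o.2.1 * kM o.2.2) '' (Icc (-r) r ×ˢ Icc (-r) r ×ˢ Icc (-r) r) := by
    ext h
    constructor
    · rintro ⟨u, hu, x, hx, s, hs, rfl⟩
      exact ⟨(u, x, s), ⟨hu, hx, hs⟩, rfl⟩
    · rintro ⟨⟨u, x, s⟩, ⟨hu, hx, hs⟩, rfl⟩
      exact ⟨u, hu, x, hx, s, hs, rfl⟩
  rw [h1]
  exact ((isCompact_Icc.prod (isCompact_Icc.prod isCompact_Icc)).image hc).measurableSet

theorem DN4_H {K L : ℝ} (hDB : ∀ (c r : ℝ) (y : ℝ → ℝ → SL(2, ℝ)), LN c L r y → ∀ (g : SL(2, ℝ)) (V : SL(2, ℝ) → ENNReal), Measurable V →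
    ∫⁻ h in {h | ∃ u ∈ Icc (-r) r, ∃ s ∈ Icc (-r) r, ∃ η ∈ Icc (-r) r, h = g * y u s * kM η}, V h ∂mG ≤
    ENNReal.ofReal (K * c) * ∫⁻ o in Icc (-r) r ×ˢ Icc (-r) r ×ˢ Icc (-r) r, V (g * y o.1 o.2.1 * kM o.2.2))
    (c r : ℝ) (y : ℝ → ℝ → SL(2, ℝ)) (hL : LN c L r y) (g : SL(2, ℝ)) (V : SL(2, ℝ) → ENNReal) (hV : Measurable V) :
    ∫⁻ h, ((DN4_S r y g).indicator (fun _ => 1) h + (DN4_S r y g).indicator (fun _ => 1) (ngM * h)) * V h ∂mG ≤
      ENNReal.ofReal (K * c) * ∫⁻ o in Icc (-r) r ×ˢ Icc (-r) r ×ˢ Icc (-r) r,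
        (V (g * y o.1 o.2.1 * kM o.2.2) + V (ngM * (g * y o.1 o.2.1 * kM o.2.2))) := by
  have hS : MeasurableSet (DN4_S r y g) := DN4_meas r y g hL.cont
  have hinv : mG.IsMulLeftInvariant := ⟨fun h => A_GLI h⟩
  have hng : Measurable (fun h : SL(2, ℝ) => ngM * h) := (continuous_const.mul continuous_id).measurable
  have hi : Measurable ((DN4_S r y g).indicator (fun _ => (1 : ENNReal))) := measurable_const.indicator hS
  have e1 : ∫⁻ h, (DN4_S r y g).indicator (fun _ => (1 : ENNReal)) (ngM * h) * V h ∂mG =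
      ∫⁻ h, (DN4_S r y g).indicator (fun _ => (1 : ENNReal)) h * V (ngM * h) ∂mG := by
    rw [← lintegral_mul_left_eq_self (fun h => (DN4_S r y g).indicator (fun _ => (1 : ENNReal)) h * V (ngM * h)) ngM]
    refine lintegral_congr fun h => ?_
    rw [DN4_ngM2]
  have e2 : ∫⁻ h, ((DN4_S r y g).indicator (fun _ => 1) h + (DN4_S r y g).indicator (fun _ => 1) (ngM * h)) * V h ∂mG =
      ∫⁻ h in DN4_S r y g, (V h + V (ngM * h)) ∂mG := by
    rw [← lintegral_indicator hS]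
    have e3 : ∀ h, ((DN4_S r y g).indicator (fun _ => (1 : ENNReal)) h + (DN4_S r y g).indicator (fun _ => (1 : ENNReal)) (ngM * h)) * V h =
        (DN4_S r y g).indicator (fun _ => (1 : ENNReal)) h * V h + (DN4_S r y g).indicator (fun _ => (1 : ENNReal)) (ngM * h) * V h :=
      fun h => add_mul _ _ _
    have hiV : Measurable (fun h => (DN4_S r y g).indicator (fun _ => (1 : ENNReal)) h * V h) := hi.mul hV
    simp_rw [e3]
    rw [lintegral_add_left hiV, e1, ← lintegral_add_left hiV]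
    refine lintegral_congr fun h => ?_
    by_cases hh : h ∈ DN4_S r y g
    · simp [hh]
    · simp [hh]
  rw [e2]
  exact hDB c r y hL g (fun h => V h + V (ngM * h)) (hV.add (hV.comp hng))

theorem DN4_ton (I : Set ℝ) (F : ℝ × ℝ × ℝ → ℝ → ENNReal) (hF : Measurable (Function.uncurry F)) :
    ∫⁻ e in I, ∫⁻ o in I ×ˢ I ×ˢ I, F o e = ∫⁻ o in I ×ˢ I ×ˢ I ×ˢ I, F (o.1, o.2.1, o.2.2.1) o.2.2.2 := by
  have h3 : (volume : Measure (ℝ × ℝ × ℝ)).restrict (I ×ˢ I ×ˢ I) =
      ((volume : Measure ℝ).restrict I).prod (((volume : Measure ℝ).restrict I).prod ((volume : Measure ℝ).restrict I)) := by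
    rw [Measure.prod_restrict, Measure.prod_restrict]
    rfl
  have h4 : (volume : Measure (ℝ × ℝ × ℝ × ℝ)).restrict (I ×ˢ I ×ˢ I ×ˢ I) =
      ((volume : Measure ℝ).restrict I).prod (((volume : Measure ℝ).restrict I).prod (((volume : Measure ℝ).restrict I).prod ((volume : Measure ℝ).restrict I))) := by
    rw [Measure.prod_restrict, Measure.prod_restrict, Measure.prod_restrict]
    rfl
  rw [h3, h4]
  have hF' : Measurable (Function.uncurry (fun (e : ℝ) (o : ℝ × ℝ × ℝ) => F o e)) := hF.comp measurable_swap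
  rw [lintegral_lintegral_swap hF'.aemeasurable]
  have hG : Measurable (fun o : ℝ × ℝ × ℝ => ∫⁻ e in I, F o e) := hF.lintegral_prod_right
  rw [lintegral_prod _ hG.aemeasurable]
  have hF4 : Measurable (fun o : ℝ × ℝ × ℝ × ℝ => F (o.1, o.2.1, o.2.2.1) o.2.2.2) :=
    hF.comp ((measurable_fst.prodMk ((measurable_fst.comp measurable_snd).prodMk (measurable_fst.comp (measurable_snd.comp measurable_snd)))).prodMk
      (measurable_snd.comp (measurable_snd.comp measurable_snd)))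
  rw [lintegral_prod _ hF4.aemeasurable]
  refine lintegral_congr fun u => ?_
  have hG2 : Measurable (fun o : ℝ × ℝ => ∫⁻ e in I, F (u, o) e) := hG.comp (measurable_const.prodMk measurable_id)
  have hF3 : Measurable (fun o : ℝ × ℝ × ℝ => F (u, o.1, o.2.1) o.2.2) := hF4.comp (measurable_const.prodMk measurable_id)
  rw [lintegral_prod _ hG2.aemeasurable, lintegral_prod _ hF3.aemeasurable]
  refine lintegral_congr fun x => ?_
  have hF2 : Measurable (fun o : ℝ × ℝ => F (u, x, o.1) o.2) := hF3.comp (measurable_const.prodMk measurable_id)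
  rw [lintegral_prod _ hF2.aemeasurable]

theorem DN4_proof (hKN4 : KN4_stmt) (hIN4 : IN4_stmt) (hSG4 : SG4_stmt) (hNI9 : NI9_stmt) (hI4N : I4N_stmt) : DON_stmt := by
  intro Γ ch k B hΓ hch hk
  obtain ⟨C1, hC1, h1⟩ := hKN4 Γ k B hΓ hk
  obtain ⟨K, hK, hDB⟩ := hIN4 C1 hC1
  obtain ⟨C2, hC2, h2⟩ := hSG4 Γ hΓ k B hk
  obtain ⟨C3, hC3, h3⟩ := hNI9 k hk
  obtain ⟨C4, hC4, h4⟩ := hI4N Γ ch k B hΓ hch hk
  refine ⟨10 + C1 + C2 + C3 + C4, by linarith, fun A hA => ?_⟩
  have hC0 : 0 < 10 + C1 + C2 + C3 + C4 := by linarith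
  have hz : 0 < A.z := lt_of_lt_of_le (mul_pos hC0 hA.e3) hA.z
  have hz1 : 0 < A.z1 := lt_of_lt_of_le (mul_pos hC0 hz) hA.z1
  have hz2 : 0 < A.z2 := lt_of_lt_of_le (mul_pos hC0 hz1) hA.z2
  obtain ⟨R1, hR1, h1'⟩ := h1 A (DN4_adm hA (by linarith) (by linarith)).1
  obtain ⟨R2, hR2, h2'⟩ := h2 A (DN4_adm hA (by linarith) (by linarith)).1
  obtain ⟨R3, hR3, h3'⟩ := h3 ch B A hch (DN4_adm hA (by linarith) (by linarith)).1
  obtain ⟨d4, R4, hd4, hR4, h4'⟩ := h4 A (DN4_adm hA (by linarith) (by linarith)).1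
  have hKC : 1 ≤ K * C1 := by nlinarith
  have hKC0 : 0 ≤ K * C1 := by linarith
  have e1 : 0 ≤ (K * C1) ^ (1 / A.z2) := Real.rpow_nonneg hKC0 _
  refine ⟨R1 + R2 + R3 + R4 + (K * C1) ^ (1 / A.z2), by linarith, fun R D hR hD p V hp hV => ?_⟩
  have hR0 : 1 ≤ R := by linarith
  have hRK : K * C1 ≤ R ^ A.z2 := by
    calc K * C1 = ((K * C1) ^ (1 / A.z2)) ^ A.z2 := by
          rw [← Real.rpow_mul hKC0, one_div, inv_mul_cancel₀ hz2.ne', Real.rpow_one]
      _ ≤ R ^ A.z2 := Real.rpow_le_rpow e1 (by linarith) hz2.le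
  obtain ⟨c, hc, hL⟩ := h1' R D (by linarith) hD p hp
  have hreach : ∀ q, ub D ch A R p q ≠ 0 → Reach D A R p q := fun q hq => (h4' R D (by linarith) hD).2.2.2.1 p q hq
  have hsh := fun q (hq : ub D ch A R p q ≠ 0) => h2' R D (by linarith) hD p q (hreach q hq)
  refine ⟨fun q hq => (hsh q hq).1, ?_⟩
  have hr0 := hL.r0
  have hc0 := hL.c0
  set r : ℝ := r2 A R with hrdef
  set g : SL(2, ℝ) := D.fl p.2 (A.tu R) p.1 with hgdef
  set y : ℝ → ℝ → SL(2, ℝ) := fun θ s => g⁻¹ * D.fl p.2 (A.tu R + s) (p.1 * kM θ) with hydef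
  have hgy : ∀ u s, g * y u s = D.fl p.2 (A.tu R + s) (p.1 * kM u) := fun u s => mul_inv_cancel_left _ _
  have hdet : 0 < ‖(D.Y p.2 (A.tu R) p.1).det‖ := (mul_pos_iff_of_pos_left (by linarith : 0 < C1)).1 (hc0.trans_le hc)
  set M : ℝ := R ^ (4 + C3 * A.z2) / ‖(D.Y p.2 (A.tu R) p.1).det‖ with hMdef
  have hM0 : 0 ≤ M := div_nonneg (Real.rpow_nonneg (by linarith) _) hdet.le
  have hM : ∀ q, ‖ub D ch A R p q‖ₑ ^ 2 ≤ ENNReal.ofReal M := by
    intro q
    rw [← ofReal_norm, ← ENNReal.ofReal_pow (norm_nonneg _)]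
    refine ENNReal.ofReal_le_ofReal ?_
    rw [hMdef, le_div_iff₀ hdet]
    exact h3' R Γ D (by linarith) hD p q hp
  have hS : MeasurableSet (DN4_S r y g) := DN4_meas r y g hL.cont
  have hi : Measurable ((DN4_S r y g).indicator (fun _ => (1 : ENNReal))) := measurable_const.indicator hS
  have hng : Measurable (fun h : SL(2, ℝ) => ngM * h) := (continuous_const.mul continuous_id).measurable
  let Φ : SL(2, ℝ) × ℝ → ENNReal := fun q => ENNReal.ofReal M * ((Icc (p.2 - r) (p.2 + r)).indicator (fun _ => 1) q.2 *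
    (((DN4_S r y g).indicator (fun _ => 1) q.1 + (DN4_S r y g).indicator (fun _ => 1) (ngM * q.1)) * V q))
  have hΦm : Measurable Φ :=
    measurable_const.mul (((measurable_const.indicator measurableSet_Icc).comp measurable_snd).mul
      (((hi.comp measurable_fst).add (hi.comp (hng.comp measurable_fst))).mul hV))
  have hpt : ∀ q, ‖ub D ch A R p q‖ₑ ^ 2 * V q ≤ Φ q := by
    intro q
    by_cases hq : ub D ch A R p q = 0
    · rw [hq]
      simp
    · obtain ⟨k1, u, s, η, hu, hs, hη, hx⟩ := hsh q hq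
      have k2 : q.2 ∈ Icc (p.2 - r) (p.2 + r) := by
        obtain ⟨k3, k4⟩ := abs_le.1 k1
        constructor <;> linarith
      have k3 : (1 : ENNReal) ≤ (DN4_S r y g).indicator (fun _ => 1) q.1 + (DN4_S r y g).indicator (fun _ => 1) (ngM * q.1) := by
        rcases hx with hx | hx
        · have k4 : q.1 ∈ DN4_S r y g := ⟨u, abs_le.1 hu, s, abs_le.1 hs, η, abs_le.1 hη, by
            rw [hgy, hx]⟩
          rw [indicator_of_mem k4]
          exact le_self_add
        · have k4 : ngM * q.1 ∈ DN4_S r y g := ⟨u, abs_le.1 hu, s, abs_le.1 hs, η, abs_le.1 hη, by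
            rw [hgy, DN4_ngM, hx, neg_neg]⟩
          rw [indicator_of_mem k4]
          exact le_add_self
      change _ ≤ ENNReal.ofReal M * (_ * _)
      rw [indicator_of_mem k2, one_mul]
      calc ‖ub D ch A R p q‖ₑ ^ 2 * V q ≤ ENNReal.ofReal M * (1 * V q) := by
            rw [one_mul]
            exact mul_le_mul' (hM q) le_rfl
        _ ≤ _ := mul_le_mul' le_rfl (mul_le_mul' k3 le_rfl)
  have hsf : SigmaFinite mG := A_GMG.2.2.1
  let G : ℝ × ℝ × ℝ → ℝ → ENNReal := fun o E => V (g * y o.1 o.2.1 * kM o.2.2, E) + V (ngM * (g * y o.1 o.2.1 * kM o.2.2), E)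
  have hGm : Measurable (Function.uncurry G) := by
    have hkM : Continuous kM := A_GLC.2.2.2.2.2.2.1
    have hy' : Continuous (fun o : (ℝ × ℝ × ℝ) × ℝ => y o.1.1 o.1.2.1) :=
      hL.cont.comp ((continuous_fst.comp continuous_fst).prodMk (continuous_fst.comp (continuous_snd.comp continuous_fst)))
    have hk : Continuous (fun o : (ℝ × ℝ × ℝ) × ℝ => g * y o.1.1 o.1.2.1 * kM o.1.2.2) :=
      (continuous_const.mul hy').mul (hkM.comp (continuous_snd.comp (continuous_snd.comp continuous_fst)))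
    exact (hV.comp (hk.measurable.prodMk measurable_snd)).add (hV.comp ((hng.comp hk.measurable).prodMk measurable_snd))
  calc ∫⁻ q, ‖ub D ch A R p q‖ₑ ^ 2 * V q ∂mW R ≤ ∫⁻ q, Φ q ∂mW R := lintegral_mono hpt
    _ = ∫⁻ E in Wi 2 R, ∫⁻ h, Φ (h, E) ∂mG := lintegral_prod_symm' _ hΦm
    _ ≤ ∫⁻ E, ∫⁻ h, Φ (h, E) ∂mG := setLIntegral_le_lintegral _ _
    _ ≤ ∫⁻ E, ENNReal.ofReal M * ENNReal.ofReal (K * c) * (Icc (p.2 - r) (p.2 + r)).indicator (fun E => ∫⁻ o in Icc (-r) r ×ˢ Icc (-r) r ×ˢ Icc (-r) r, G o E) E := by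
        refine lintegral_mono fun E => ?_
        change ∫⁻ h, ENNReal.ofReal M * (_ * _) ∂mG ≤ _
        rw [lintegral_const_mul' _ _ ENNReal.ofReal_ne_top]
        by_cases hE : E ∈ Icc (p.2 - r) (p.2 + r)
        · simp only [indicator_of_mem hE, one_mul]
          rw [mul_assoc]
          refine mul_le_mul' le_rfl ?_
          exact DN4_H hDB c r y hL g (fun h => V (h, E)) (hV.comp (measurable_id.prodMk measurable_const))
        · simp only [indicator_of_notMem hE, zero_mul, lintegral_zero, mul_zero, le_refl]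
    _ = ENNReal.ofReal M * ENNReal.ofReal (K * c) * ∫⁻ E, (Icc (p.2 - r) (p.2 + r)).indicator (fun E => ∫⁻ o in Icc (-r) r ×ˢ Icc (-r) r ×ˢ Icc (-r) r, G o E) E :=
        lintegral_const_mul' _ _ (ENNReal.mul_ne_top ENNReal.ofReal_ne_top ENNReal.ofReal_ne_top)
    _ = ENNReal.ofReal M * ENNReal.ofReal (K * c) * ∫⁻ e in Icc (-r) r, ∫⁻ o in Icc (-r) r ×ˢ Icc (-r) r ×ˢ Icc (-r) r, G o (p.2 + e) := by
        congr 1
        rw [← lintegral_add_left_eq_self _ p.2, ← lintegral_indicator measurableSet_Icc]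
        refine lintegral_congr fun e => ?_
        by_cases he : e ∈ Icc (-r) r
        · have he' : p.2 + e ∈ Icc (p.2 - r) (p.2 + r) := ⟨by linarith [he.1], by linarith [he.2]⟩
          rw [indicator_of_mem he, indicator_of_mem he']
        · have he' : p.2 + e ∉ Icc (p.2 - r) (p.2 + r) := fun hcon => he ⟨by linarith [hcon.1], by linarith [hcon.2]⟩
          rw [indicator_of_notMem he, indicator_of_notMem he']
    _ = ENNReal.ofReal M * ENNReal.ofReal (K * c) * PVN D A R V p := by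
        congr 1
        rw [DN4_ton (Icc (-r) r) (fun o e => G o (p.2 + e)) (hGm.comp (measurable_fst.prodMk (measurable_const.add measurable_snd)))]
        refine lintegral_congr fun o => ?_
        simp only [G, PhiN, hgy]
    _ ≤ ENNReal.ofReal (R ^ (4 + (10 + C1 + C2 + C3 + C4) * A.z2)) * PVN D A R V p := by
        refine mul_le_mul' ?_ le_rfl
        rw [← ENNReal.ofReal_mul hM0]
        refine ENNReal.ofReal_le_ofReal ?_
        have hRR : 0 ≤ R ^ (4 + C3 * A.z2) := Real.rpow_nonneg (by linarith) _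
        calc M * (K * c) ≤ M * (K * (C1 * ‖(D.Y p.2 (A.tu R) p.1).det‖)) := by
              refine mul_le_mul_of_nonneg_left (mul_le_mul_of_nonneg_left hc (by linarith)) hM0
          _ = R ^ (4 + C3 * A.z2) * (K * C1) := by
              rw [hMdef]
              field_simp
          _ ≤ R ^ (4 + C3 * A.z2) * R ^ A.z2 := mul_le_mul_of_nonneg_left hRK hRR
          _ = R ^ (4 + C3 * A.z2 + A.z2) := (Real.rpow_add (by linarith) _ _).symm
          _ ≤ R ^ (4 + (10 + C1 + C2 + C3 + C4) * A.z2) := by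
              refine Real.rpow_le_rpow_of_exponent_le hR0 ?_
              nlinarith

end

end Pool.Agent.VN
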