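import Pool.Agent.helper11.VN.Spec3b
import Pool.Agent.helper72.QU.DOM

set_option autoImplicit false

open scoped MatrixGroups ContDiff Topology UpperHalfPlane ComplexConjugate ENNReal
open UpperHalfPlane MeasureTheory Filter Set

namespace Pool.Agent.VN

open Pool.Agent.RS Pool.Agent.VQ
open Pool.Agent.RPQ (CEig mean VV IsOp IsMul OProj wrd PJ nst mks MO Net Cl CkB PN upd Eqd)

/-- the functions of the final statement -/
noncomputable def FNN_u (J : ℕ → ℕ) (χ : (k : ℕ) → Fin (J k) → ℍ → ℝ) (k j : ℕ) (z : ℍ) : ℝ :=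
  if h : j < J k then aN k * χ k ⟨j, h⟩ z else 0

theorem FNN_sum (J : ℕ → ℕ) (χ : (k : ℕ) → Fin (J k) → ℍ → ℝ) (k : ℕ) (ξ : ℕ → ℝ) (z : ℍ) :
    ∑ j ∈ Finset.range (J k), ξ j * FNN_u J χ k j z = aN k * VV (χ k) (fun j => ξ (j : ℕ)) z := by
  rw [Finset.sum_range]
  unfold VV
  rw [Finset.mul_sum]
  refine Finset.sum_congr rfl fun i _ => ?_
  have h : FNN_u J χ k (i : ℕ) z = aN k * χ k i z := by
    unfold FNN_u
    rw [dif_pos i.2]
  rw [h]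
  ring

theorem FNN_tsum (J : ℕ → ℕ) (χ : (k : ℕ) → Fin (J k) → ℍ → ℝ) (ζ : ℕ × ℕ → ℝ) (z : ℍ) :
    (∑' k, ∑ j ∈ Finset.range (J k), ζ (k, j) * FNN_u J χ k j z) = rN χ ζ z := by
  unfold rN
  refine tsum_congr fun k => ?_
  unfold lN
  exact FNN_sum J χ k (fun j => ζ (k, j)) z

theorem FNN_aN (k : ℕ) : 0 ≤ aN k := by
  unfold aN
  positivity

theorem FNN_cont {φ : ℍ → ℂ} (h : QU.CD 2 φ) : Continuous φ := by
  have h1 : ContinuousOn (QU.onC φ) {w : ℂ | 0 < w.im} := ContDiffOn.continuousOn h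
  have h2 : φ = fun z : ℍ => QU.onC φ (z : ℂ) := by
    funext z
    unfold QU.onC
    rw [ofComplex_apply]
  rw [h2]
  exact h1.comp_continuous continuous_coe (fun z => z.im_pos)

theorem FNN_ckb {n : ℕ} {f : ℍ → ℝ} {B B' : ℝ} (h : CkB n f B) (hB : B ≤ B') : CkB n f B' := fun g => (h g).trans hB

theorem FNN_proof (hBC2N : BC2N_stmt) (hFAMN : FAMN_stmt) (hSEN : SEN_stmt) (hLNV : VQ.LNV_stmt) (hMFV : VQ.MFV_stmt) (hLIP : RPQ.LIP_stmt)
    (hRSM : RPQ.RSM_stmt) (hMOM : RPQ.MOM_stmt) : FNN_stmt := by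
  intro Γ hΓ
  obtain ⟨κ, hκ⟩ := hMOM.1
  obtain ⟨F0, hF0⟩ := QU.DOM Γ hΓ
  obtain ⟨C0, k0, J, p, χ, hFam, hJ⟩ := hFAMN Γ κ hΓ hκ
  refine ⟨k0, J, FNN_u J χ, hJ, ?_, ?_, ?_, ?_⟩
  · intro k j
    by_cases h : j < J k
    · have hk : k0 ≤ k := by
        by_contra hk
        have := hFam.zero k (by omega)
        omega
      have hn := hFam.net k hk
      have he : FNN_u J χ k j = fun z => aN k * χ k ⟨j, h⟩ z := by
        funext z
        unfold FNN_u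
        rw [dif_pos h]
      rw [he]
      refine ⟨?_, ?_, ?_⟩
      · exact ContDiffOn.mul contDiffOn_const (hn.smooth ⟨j, h⟩)
      · exact ⟨continuous_const.mul (hn.inv ⟨j, h⟩).1, fun γ z => by
          have h5 := (hn.inv ⟨j, h⟩).2 γ z
          simp only [h5]⟩
      · intro z
        exact mul_nonneg (FNN_aN k) (hn.bd ⟨j, h⟩ z).1
    · have he : FNN_u J χ k j = fun _ => 0 := by
        funext z
        unfold FNN_u
        rw [dif_neg h]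
      rw [he]
      refine ⟨?_, ?_, ?_⟩
      · exact contDiffOn_const
      · exact ⟨continuous_const, fun γ z => rfl⟩
      · intro z
        exact le_refl _
  · intro n
    obtain ⟨c, C', hc, -, h, -⟩ := hFam.sum
    refine ⟨c n, hc n, fun k ξ hξ => ?_⟩
    have h1 := h n k (fun q => ξ q.2) (fun q => hξ _)
    have he : (fun z : ℍ => ∑ j ∈ Finset.range (J k), ξ j * FNN_u J χ k j z) = lN χ (fun q => ξ q.2) k := by
      funext z
      unfold lN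
      exact FNN_sum J χ k ξ z
    rw [he]
    exact h1
  · intro ζ hζ
    have h0 : QU.Inv Γ (fun _ : ℍ => (0 : ℝ)) := ⟨continuous_const, fun γ z => rfl⟩
    have h00 : QU.CD ∞ (fun _ : ℍ => (0 : ℝ)) := contDiffOn_const
    obtain ⟨b, hb⟩ := (hSEN Γ κ C0 k0 J p χ (fun _ => 0) hΓ hFam h00 h0).1
    have h1 := (hb ζ hζ).1
    have he : (fun z : ℍ => ∑' k, ∑ j ∈ Finset.range (J k), ζ (k, j) * FNN_u J χ k j z) = fun z => (fun _ : ℍ => (0 : ℝ)) z + rN χ ζ z := by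
      funext z
      rw [FNN_tsum]
      simp
    rw [he]
    exact h1.1
  · intro f0 hf1 hf2
    obtain ⟨D, hD, hL⟩ := hLNV Γ hΓ
    have hLm : ∀ m : ℕ, ∃ S : Finset (ℍ → ℝ), (∀ h ∈ S, TF Γ h) ∧
        ∀ h : ℍ → ℝ, QU.Inv Γ h → (∀ z w, |h z - h w| ≤ dist z w) → ∃ (c : ℝ), ∃ h' ∈ S, ∀ z, |(h z - c) / D - h' z| ≤ 1 / ((m : ℝ) + 1) :=
      fun m => hL (1 / ((m : ℝ) + 1)) (by positivity)
    choose S hS1 hS2 using hLm
    obtain ⟨b, hb⟩ := (hSEN Γ κ C0 k0 J p χ f0 hΓ hFam hf1 hf2).1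
    obtain ⟨M, hM0, hM1, hM2⟩ : ∃ M : ℝ, 0 ≤ M ∧ b 0 ≤ M ∧ b 1 ≤ M :=
      ⟨max (max (b 0) (b 1)) 0, le_max_right _ _, (le_max_left _ _).trans (le_max_left _ _), (le_max_right _ _).trans (le_max_left _ _)⟩
    obtain ⟨C, hC, hM⟩ := hMFV Γ M D hΓ hM0 hD
    have hae : ∀ᵐ ζ ∂PN, ∀ m : ℕ, ∀ h ∈ S m, (∀ z, QU.lap (fun w => f0 w + rN χ ζ w) z < 2) → ∃ r0 : ℝ, 0 < r0 ∧ ∀ (μ : ℝ) (φ : ℍ → ℂ), r0 ≤ μ →
        CEig Γ (fun z => f0 z + rN χ ζ z) μ φ → |(∫ z in F0, h z * ‖φ z‖ ^ 2) - mean F0 h * nn F0 φ| ≤ 1 / ((m : ℝ) + 1) * nn F0 φ := by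
      rw [ae_all_iff]
      intro m
      rw [Filter.eventually_all_finset]
      intro h hh
      exact hBC2N Γ F0 κ C0 k0 J p χ f0 hΓ hF0 hκ hFam hf1 hf2 h (1 / ((m : ℝ) + 1)) (hS1 m h hh) (by positivity)
    filter_upwards [hae, hRSM.2.1] with ζ hζ hζ1 hlap ε hε
    have he : (fun z : ℍ => f0 z + ∑' k, ∑ j ∈ Finset.range (J k), ζ (k, j) * FNN_u J χ k j z) = fun z => f0 z + rN χ ζ z := by
      funext z
      rw [FNN_tsum]
    rw [he] at hlap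
    have hb1 := (hb ζ hζ1).1
    obtain ⟨m, hm⟩ := exists_nat_one_div_lt (show 0 < ε / C by positivity)
    have hm2 : C * (1 / ((m : ℝ) + 1)) ≤ ε := by
      have h1 : 1 / ((m : ℝ) + 1) * C ≤ ε := by
        rw [lt_div_iff₀ (by linarith)] at hm
        exact hm.le
      linarith
    have hζm : ∀ h ∈ S m, ∃ r0 : ℝ, 0 < r0 ∧ ∀ (μ : ℝ) (φ : ℍ → ℂ), r0 ≤ μ →
        CEig Γ (fun z => f0 z + rN χ ζ z) μ φ → |(∫ z in F0, h z * ‖φ z‖ ^ 2) - mean F0 h * nn F0 φ| ≤ 1 / ((m : ℝ) + 1) * nn F0 φ :=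
      fun h hh => hζ m h hh hlap
    choose! r hr1 hr2 using hζm
    refine ⟨1 + ∑ h ∈ S m, |r h|, ?_, ?_⟩
    · have : 0 ≤ ∑ h ∈ S m, |r h| := Finset.sum_nonneg fun _ _ => abs_nonneg _
      linarith
    intro F μ φ hF hμ hE
    rw [he] at hE ⊢
    have hl0 := (hLIP _ M hb1.1).1 (FNN_ckb (hb1.2.2 0) hM1)
    have hl1 := (hLIP _ M hb1.1).2 (FNN_ckb (hb1.2.2 1) hM2)
    have hEq : Eqd Γ F (fun z => f0 z + rN χ ζ z) (C * (1 / ((m : ℝ) + 1))) φ := by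
      refine hM F0 F (fun z => f0 z + rN χ ζ z) (1 / ((m : ℝ) + 1)) φ hF0 hF hb1.2.1 hl0 hl1 ⟨FNN_cont hE.1, hE.2.1⟩ (by positivity) ?_
      intro h hh1 hh2
      obtain ⟨c, h', hh', hc⟩ := hS2 m h hh1 hh2
      refine ⟨c, h', hS1 m h' hh', hc, ?_⟩
      refine hr2 h' hh' μ φ ?_ hE
      have h3 : |r h'| ≤ ∑ h ∈ S m, |r h| := Finset.single_le_sum (f := fun h => |r h|) (fun _ _ => abs_nonneg _) hh'
      have h4 := le_abs_self (r h')
      linarith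
    intro h hh1 hh2
    refine (hEq h hh1 hh2).trans ?_
    refine mul_le_mul_of_nonneg_right hm2 ?_
    refine integral_nonneg fun z => ?_
    positivity

end Pool.Agent.VN
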