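import Pool.Agent.helper74.VN.SpecN
import Pool.Agent.helper72.QU.DOM

/-!
# vn:NI4 (MP_07c750_an): interface I4N, the big step kernel
-/

set_option autoImplicit false

open scoped MatrixGroups ContDiff Topology UpperHalfPlane ComplexConjugate ENNReal
open UpperHalfPlane MeasureTheory Filter Set

namespace Pool.Agent.VN

open Pool.Agent.RS Pool.Agent.VQ

noncomputable section

theorem NI4_adm {C C' : ℝ} {A : Prm} (h : C ≤ C') (hC' : 0 < C') (hA : Adm C' A) : Adm C A := by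
  have he3 := hA.e3
  have hz : 0 < A.z := lt_of_lt_of_le (mul_pos hC' he3) hA.z
  have hz1 : 0 < A.z1 := lt_of_lt_of_le (mul_pos hC' hz) hA.z1
  have hz2 : 0 < A.z2 := lt_of_lt_of_le (mul_pos hC' hz1) hA.z2
  refine ⟨hA.e3, hA.m, ?_, ?_, ?_, ?_, hA.tu⟩
  · exact (mul_le_mul_of_nonneg_right h he3.le).trans hA.z
  · exact (mul_le_mul_of_nonneg_right h hz.le).trans hA.z1
  · exact (mul_le_mul_of_nonneg_right h hz1.le).trans hA.z2
  · exact (mul_le_mul_of_nonneg_right h (mul_nonneg (Nat.cast_nonneg _) hz2.le)).trans hA.up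

/-- the big step is short -/
theorem NI4_small {C : ℝ} {A : Prm} (hC : 2 ≤ C) (hA : Adm C A) : C * (A.m * A.e3) ≤ 1 / 8 := by
  have he3 := hA.e3
  have hC0 : 0 < C := by linarith
  have hm : (0 : ℝ) ≤ A.m := Nat.cast_nonneg _
  have h1 : C * (C * (C * A.e3)) ≤ A.z2 :=
    (mul_le_mul_of_nonneg_left ((mul_le_mul_of_nonneg_left hA.z hC0.le).trans hA.z1) hC0.le).trans hA.z2
  have h2 : C * (A.m * (C * (C * (C * A.e3)))) ≤ 1 :=
    (mul_le_mul_of_nonneg_left (mul_le_mul_of_nonneg_left h1 hm) hC0.le).trans hA.up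
  have h3 : C * (A.m * (C * (C * (C * A.e3)))) = (C ^ 3) * (C * (A.m * A.e3)) := by ring
  have h4 : (8 : ℝ) ≤ C ^ 3 := by
    have : (2 : ℝ) ^ 3 ≤ C ^ 3 := pow_le_pow_left₀ (by norm_num) hC 3
    linarith
  have h5 : 0 ≤ C * (A.m * A.e3) := mul_nonneg hC0.le (mul_nonneg hm he3.le)
  have h6 : 8 * (C * (A.m * A.e3)) ≤ C ^ 3 * (C * (A.m * A.e3)) := mul_le_mul_of_nonneg_right h4 h5
  linarith

theorem NI4_mW (R : ℝ) : mW R ≤ mP := by
  have : SigmaFinite mG := RS.A_GMG.2.2.1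
  have h : mW R = mP.restrict (univ ×ˢ Wi 2 R) := by
    unfold mW mP
    rw [← Measure.prod_restrict, Measure.restrict_univ]
  rw [h]
  exact Measure.restrict_le_self

theorem NI4_proof (hNUM : NUM_stmt) (hNMA : NMA_stmt) : NI4_stmt := by
  intro Γ ch k B hΓ hch hk
  obtain ⟨C1, hC1, hU⟩ := hNUM k hk
  obtain ⟨C2, hC2, hM⟩ := hNMA k hk
  have hCge : (2 : ℝ) ≤ max (max C1 C2) 2 := le_max_right _ _
  refine ⟨max (max C1 C2) 2, by linarith, ?_⟩
  intro A hA
  have hC0 : (0 : ℝ) < max (max C1 C2) 2 := by linarith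
  have hA1 : Adm C1 A := NI4_adm ((le_max_left _ _).trans (le_max_left _ _)) hC0 hA
  have hA2 : Adm C2 A := NI4_adm ((le_max_right _ _).trans (le_max_left _ _)) hC0 hA
  obtain ⟨R1, hR1, hU'⟩ := hU ch B A hch hA1
  obtain ⟨R2, hR2, hM'⟩ := hM ch B A hch hA2
  obtain ⟨F, hF⟩ := QU.DOM Γ hΓ
  refine ⟨1 / 7, max (max R1 R2) 3, by norm_num, le_trans hR1 ((le_max_left _ _).trans (le_max_left _ _)), ?_⟩
  intro R D hR hD
  have hR1' : R1 ≤ R := ((le_max_left _ _).trans (le_max_left _ _)).trans hR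
  have hR2' : R2 ≤ R := ((le_max_right _ _).trans (le_max_left _ _)).trans hR
  have hR3 : 3 ≤ R := (le_max_right _ _).trans hR
  have hDm : Dm Γ F := Or.inl ⟨hΓ, hF⟩
  obtain ⟨-, h2, h3, -, -, -, -⟩ := hU' R Γ F D hR1' hDm hD
  have h4 := hM' R Γ D hR2' hD A.m
  have hlog : 1 ≤ Real.log R := by
    rw [Real.le_log_iff_exp_le (by linarith)]
    have := Real.exp_one_lt_d9
    linarith
  refine ⟨h2 A.m, fun p q => (h4 p hA.m le_rfl).2 q, fun p q hpq => ?_, fun p q hpq => (h3 A.m p q hpq).1,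
    fun p => ?_⟩
  · have h5 := (h3 A.m p q hpq).2
    have h6 : C1 * (A.m * A.e3) ≤ 1 / 8 := by
      have h7 := NI4_small hCge hA
      have h8 : 0 ≤ (A.m : ℝ) * A.e3 := mul_nonneg (Nat.cast_nonneg _) hA.e3.le
      exact (mul_le_mul_of_nonneg_right ((le_max_left C1 C2).trans (le_max_left _ 2)) h8).trans h7
    have h9 : C1 * (A.m * A.sg R) = C1 * (A.m * A.e3) * Real.log R := by
      unfold Prm.sg
      ring
    rw [h9] at h5
    have h10 : C1 * (A.m * A.e3) * Real.log R ≤ 1 / 8 * Real.log R := mul_le_mul_of_nonneg_right h6 (by linarith)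
    linarith
  · exact (lintegral_mono' (NI4_mW R) le_rfl).trans (h4 p hA.m le_rfl).1

end

end Pool.Agent.VN
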