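import Pool.Agent.helper74.VN.SpecC

set_option autoImplicit false

open scoped MatrixGroups ContDiff Topology UpperHalfPlane ComplexConjugate ENNReal
open UpperHalfPlane MeasureTheory Filter Set

namespace Pool.Agent.VN

open Pool.Agent.RS Pool.Agent.VQ

noncomputable section

/-- the boxes are invariant under inversion -/
theorem NUS_inv {r : ℝ} {g : SL(2, ℝ)} (h : g ∈ Bo r) : g⁻¹ ∈ Bo r := by
  have h00 : (g⁻¹).1 0 0 = g.1 1 1 := by
    rw [Matrix.SpecialLinearGroup.SL2_inv_expl]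
    rfl
  have h01 : (g⁻¹).1 0 1 = -g.1 0 1 := by
    rw [Matrix.SpecialLinearGroup.SL2_inv_expl]
    rfl
  have h10 : (g⁻¹).1 1 0 = -g.1 1 0 := by
    rw [Matrix.SpecialLinearGroup.SL2_inv_expl]
    rfl
  have h11 : (g⁻¹).1 1 1 = g.1 0 0 := by
    rw [Matrix.SpecialLinearGroup.SL2_inv_expl]
    rfl
  have o00 : (1 : Matrix (Fin 2) (Fin 2) ℝ) 0 0 = 1 := rfl
  have o01 : (1 : Matrix (Fin 2) (Fin 2) ℝ) 0 1 = 0 := rfl
  have o10 : (1 : Matrix (Fin 2) (Fin 2) ℝ) 1 0 = 0 := rfl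
  have o11 : (1 : Matrix (Fin 2) (Fin 2) ℝ) 1 1 = 1 := rfl
  rcases h with h | h
  · left
    have a00 := h 0 0
    have a01 := h 0 1
    have a10 := h 1 0
    have a11 := h 1 1
    rw [o00] at a00
    rw [o01] at a01
    rw [o10] at a10
    rw [o11] at a11
    intro i j
    fin_cases i <;> fin_cases j
    · change |(g⁻¹).1 0 0 - (1 : Matrix (Fin 2) (Fin 2) ℝ) 0 0| < r
      rw [h00, o00]
      exact a11
    · change |(g⁻¹).1 0 1 - (1 : Matrix (Fin 2) (Fin 2) ℝ) 0 1| < r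
      rw [h01, o01, sub_zero, abs_neg]
      rw [sub_zero] at a01
      exact a01
    · change |(g⁻¹).1 1 0 - (1 : Matrix (Fin 2) (Fin 2) ℝ) 1 0| < r
      rw [h10, o10, sub_zero, abs_neg]
      rw [sub_zero] at a10
      exact a10
    · change |(g⁻¹).1 1 1 - (1 : Matrix (Fin 2) (Fin 2) ℝ) 1 1| < r
      rw [h11, o11]
      exact a00
  · right
    have a00 := h 0 0
    have a01 := h 0 1
    have a10 := h 1 0
    have a11 := h 1 1
    rw [o00] at a00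
    rw [o01] at a01
    rw [o10] at a10
    rw [o11] at a11
    intro i j
    fin_cases i <;> fin_cases j
    · change |(g⁻¹).1 0 0 + (1 : Matrix (Fin 2) (Fin 2) ℝ) 0 0| < r
      rw [h00, o00]
      exact a11
    · change |(g⁻¹).1 0 1 + (1 : Matrix (Fin 2) (Fin 2) ℝ) 0 1| < r
      rw [h01, o01, add_zero, abs_neg]
      rw [add_zero] at a01
      exact a01
    · change |(g⁻¹).1 1 0 + (1 : Matrix (Fin 2) (Fin 2) ℝ) 1 0| < r
      rw [h10, o10, add_zero, abs_neg]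
      rw [add_zero] at a10
      exact a10
    · change |(g⁻¹).1 1 1 + (1 : Matrix (Fin 2) (Fin 2) ℝ) 1 1| < r
      rw [h11, o11]
      exact a00

/-- the integral of a bounded function with small support -/
theorem NUS_int {f : SL(2, ℝ) × ℝ → ℂ} {S : Set (SL(2, ℝ) × ℝ)} {M V : ℝ} (hM : 0 ≤ M) (h1 : ∀ q, f q ≠ 0 → q ∈ S ∧ ‖f q‖ ≤ M)
    (h2 : mP S ≤ ENNReal.ofReal V) : ∫⁻ q, ‖f q‖ₑ ∂mP ≤ ENNReal.ofReal (M * V) := by
  have e1 : ∫⁻ q, ‖f q‖ₑ ∂mP ≤ ∫⁻ q, S.indicator (fun _ => ENNReal.ofReal M) q ∂mP := by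
    apply lintegral_mono
    intro q
    by_cases hq : f q = 0
    · simp [hq]
    · obtain ⟨hS, hb⟩ := h1 q hq
      simp only [indicator_of_mem hS]
      rw [← ofReal_norm_eq_enorm]
      exact ENNReal.ofReal_le_ofReal hb
  refine e1.trans ((lintegral_indicator_const_le _ _).trans ?_)
  rw [ENNReal.ofReal_mul hM]
  exact mul_le_mul_right h2 _

/-- the numbers -/
theorem NUS_num {Cu Cv C : ℝ} {A : Prm} {k R : ℝ} (hCu : 1 ≤ Cu) (hCv : 1 ≤ Cv) (hC : C = Cu + 6) (hA : Adm C A) (hk : 0 < k)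
    (h1 : 64 ≤ R) (h2 : (2 / k) ^ 4 ≤ R) (h3 : Cv ^ (1 / A.z2) ≤ R) :
    Rg Cu A.e3 A.z A.z1 ∧ 0 ≤ A.sg R ∧ 2 * R ^ (-(1 / 4) : ℝ) ≤ k ∧ 0 < A.r R ∧ A.r R ≤ 1 / 4 ∧
      R ^ (2 + Cu * A.z1) * (Cv * A.r R ^ 4) ≤ R ^ (C * A.z2) := by
  have e3 := hA.e3
  have hz := hA.z
  have hz1 := hA.z1
  have hz2 := hA.z2
  have hm : (1 : ℝ) ≤ A.m := by exact_mod_cast hA.m
  have C7 : 7 ≤ C := by linarith
  have b0 : A.e3 ≤ A.z := by nlinarith
  have a0 : 0 < A.z := by linarith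
  have b1 : A.z ≤ A.z1 := by nlinarith
  have a1 : 0 < A.z1 := by linarith
  have b2 : A.z1 ≤ A.z2 := by nlinarith
  have a2 : 0 < A.z2 := by linarith
  have up := hA.up
  have c2 : C * A.z2 ≤ 1 := by
    have : A.z2 ≤ A.m * A.z2 := by nlinarith
    nlinarith
  have c3 : A.z2 ≤ 1 / 7 := by nlinarith
  have R1 : 1 ≤ R := by linarith
  have R0 : 0 < R := by linarith
  have hl : 0 ≤ Real.log R := Real.log_nonneg R1
  refine ⟨⟨e3.le, a0, b1, ?_, ?_⟩, mul_nonneg e3.le hl, ?_, Real.rpow_pos_of_pos R0 _, ?_, ?_⟩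
  · nlinarith
  · nlinarith
  · have h4 : 2 / k ≤ R ^ (1 / 4 : ℝ) := by
      have h5 : ((2 / k) ^ 4) ^ (1 / 4 : ℝ) ≤ R ^ (1 / 4 : ℝ) := Real.rpow_le_rpow (by positivity) h2 (by norm_num)
      rw [← Real.rpow_natCast, ← Real.rpow_mul (by positivity)] at h5
      norm_num at h5
      exact h5
    rw [Real.rpow_neg R0.le]
    have h6 : 0 < R ^ (1 / 4 : ℝ) := Real.rpow_pos_of_pos R0 _
    rw [← div_eq_mul_inv, div_le_iff₀ h6]
    rw [div_le_iff₀ hk] at h4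
    linarith
  · have h4 : A.r R ≤ R ^ (-(1 / 3) : ℝ) := by
      apply Real.rpow_le_rpow_of_exponent_le R1
      linarith
    have h5 : R ^ (-(1 / 3) : ℝ) ≤ (64 : ℝ) ^ (-(1 / 3) : ℝ) := Real.rpow_le_rpow_of_nonpos (by norm_num) h1 (by norm_num)
    have h6 : (64 : ℝ) ^ (-(1 / 3) : ℝ) = 1 / 4 := by
      have : (64 : ℝ) = (4 : ℝ) ^ (3 : ℝ) := by norm_num
      rw [this, ← Real.rpow_mul (by norm_num)]
      norm_num
    linarith
  · have h4 : A.r R ^ 4 = R ^ (-2 + 4 * A.z2) := by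
      rw [Prm.r, ← Real.rpow_natCast, ← Real.rpow_mul R0.le]
      congr 1
      push_cast
      ring
    have h5 : Cv ≤ R ^ A.z2 := by
      have h6 : (Cv ^ (1 / A.z2)) ^ A.z2 ≤ R ^ A.z2 := Real.rpow_le_rpow (by positivity) h3 a2.le
      rw [← Real.rpow_mul (by linarith)] at h6
      have h7 : 1 / A.z2 * A.z2 = 1 := by field_simp
      rw [h7, Real.rpow_one] at h6
      exact h6
    rw [h4]
    calc R ^ (2 + Cu * A.z1) * (Cv * R ^ (-2 + 4 * A.z2)) ≤ R ^ (2 + Cu * A.z1) * (R ^ A.z2 * R ^ (-2 + 4 * A.z2)) := by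
          have p1 : 0 ≤ R ^ (2 + Cu * A.z1) := Real.rpow_nonneg R0.le _
          have p2 : 0 ≤ R ^ (-2 + 4 * A.z2) := Real.rpow_nonneg R0.le _
          exact mul_le_mul_of_nonneg_left (mul_le_mul_of_nonneg_right h5 p2) p1
      _ = R ^ (Cu * A.z1 + 5 * A.z2) := by
          rw [← Real.rpow_add R0, ← Real.rpow_add R0]
          congr 1
          ring
      _ ≤ R ^ (C * A.z2) := by
          apply Real.rpow_le_rpow_of_exponent_le R1
          nlinarith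

theorem NUS_proof (hUL : NUL_stmt) (hNV : NNV_stmt) : NUS_stmt := by
  intro k hk
  obtain ⟨Cu, hCu, HU⟩ := hUL k hk
  obtain ⟨Cv, hCv, HV⟩ := hNV k hk
  refine ⟨Cu + 6, by linarith, ?_⟩
  intro ch B A hch hA
  have hRg : Rg Cu A.e3 A.z A.z1 := by
    have h1 : (64 : ℝ) ≤ max 64 (max ((2 / k) ^ 4) (Cv ^ (1 / A.z2))) := le_max_left _ _
    exact (NUS_num hCu hCv rfl hA hk h1 ((le_max_left _ _).trans (le_max_right _ _)) ((le_max_right _ _).trans (le_max_right _ _))).1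
  obtain ⟨R1, hR1, HU1⟩ := HU ch A.e3 A.z A.z1 0 B hch hRg
  refine ⟨max R1 (max 64 (max ((2 / k) ^ 4) (Cv ^ (1 / A.z2)))), hR1.trans (le_max_left _ _), ?_⟩
  intro R Γ D hR hO
  have hRR1 : R1 ≤ R := (le_max_left _ _).trans hR
  have hR2 : max 64 (max ((2 / k) ^ 4) (Cv ^ (1 / A.z2))) ≤ R := (le_max_right _ _).trans hR
  obtain ⟨-, hs, hk2, hr0, hr1, hfin⟩ := NUS_num hCu hCv rfl hA hk ((le_max_left _ _).trans hR2)
    (((le_max_left _ _).trans (le_max_right _ _)).trans hR2) (((le_max_right _ _).trans (le_max_right _ _)).trans hR2)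
  have hRone : 1 ≤ R := hR1.trans hRR1
  have hRpos : 0 < R := by linarith
  have hM : 0 ≤ R ^ (2 + Cu * A.z1) := Real.rpow_nonneg hRpos.le _
  have hvol : ∀ (h : SL(2, ℝ)) (t E : ℝ), mP {q | q ∈ GW 2 R ∧ h⁻¹ * D.fl q.2 t q.1 ∈ Bo (A.r R) ∧ |E - q.2| < A.r R} ≤ ENNReal.ofReal (Cv * A.r R ^ 4) := by
    intro h t E
    exact (HV Γ B D hO R hk2 hRone h 0 t (A.r R) hr0 hr1 le_rfl (by linarith)).2.1 E
  have hfin' : ENNReal.ofReal (R ^ (2 + Cu * A.z1) * (Cv * A.r R ^ 4)) ≤ ENNReal.ofReal (R ^ ((Cu + 6) * A.z2)) := ENNReal.ofReal_le_ofReal hfin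
  have hus : ∀ p q, us D ch A R p q ≠ 0 → (p ∈ GW 2 R ∧ q ∈ GW 2 R ∧ Nb (A.r R) (D.ph (A.sg R) p) q) ∧ ‖us D ch A R p q‖ ≤ R ^ (2 + Cu * A.z1) := by
    intro p q hne
    unfold us at hne ⊢
    split_ifs at hne ⊢ with hc
    · have hp : p ∈ GW 2 R := ⟨mem_univ _, hc.1⟩
      have hq : q ∈ GW 2 R := ⟨mem_univ _, hc.2.1⟩
      exact ⟨⟨hp, hq, hc.2.2⟩, (HU1 R (A.sg R) Γ D p q hRR1 hO hs le_rfl hp hq).1⟩
    · exact absurd rfl hne
  have hpr : ∀ p q, pr D ch A R p q ≠ 0 → (p ∈ GW 2 R ∧ q ∈ GW 2 R ∧ Nb (A.r R) p q) ∧ ‖pr D ch A R p q‖ ≤ R ^ (2 + Cu * A.z1) := by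
    intro p q hne
    unfold VQ.pr at hne ⊢
    split_ifs at hne ⊢ with hc
    · have hp : p ∈ GW 2 R := ⟨mem_univ _, hc.1⟩
      have hq : q ∈ GW 2 R := ⟨mem_univ _, hc.2.1⟩
      exact ⟨⟨hp, hq, hc.2.2⟩, (HU1 R (A.sg R) Γ D p q hRR1 hO hs le_rfl hp hq).2.2.2.1⟩
    · exact absurd rfl hne
  refine ⟨fun p => ?_, fun q => ?_, fun p => ?_, fun q => ?_⟩
  · refine (NUS_int hM (fun q hq => ?_) (hvol (D.fl p.2 (A.sg R) p.1) 0 p.2)).trans hfin'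
    obtain ⟨⟨-, h2, h3⟩, h4⟩ := hus p q hq
    refine ⟨⟨h2, ?_, h3.2⟩, h4⟩
    rw [hO.fl0]
    exact h3.1
  · refine (NUS_int hM (fun p hp => ?_) (hvol q.1 (A.sg R) q.2)).trans hfin'
    obtain ⟨⟨h2, -, h3⟩, h4⟩ := hus p q hp
    refine ⟨⟨h2, ?_, ?_⟩, h4⟩
    · have h5 := NUS_inv h3.1
      rw [mul_inv_rev, inv_inv] at h5
      exact h5
    · rw [abs_sub_comm]
      exact h3.2
  · refine (NUS_int hM (fun q hq => ?_) (hvol p.1 0 p.2)).trans hfin'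
    obtain ⟨⟨-, h2, h3⟩, h4⟩ := hpr p q hq
    refine ⟨⟨h2, ?_, h3.2⟩, h4⟩
    rw [hO.fl0]
    exact h3.1
  · refine (NUS_int hM (fun p hp => ?_) (hvol q.1 0 q.2)).trans hfin'
    obtain ⟨⟨h2, -, h3⟩, h4⟩ := hpr p q hp
    refine ⟨⟨h2, ?_, ?_⟩, h4⟩
    · have h5 := NUS_inv h3.1
      rw [mul_inv_rev, inv_inv] at h5
      rw [hO.fl0]
      exact h5
    · rw [abs_sub_comm]
      exact h3.2

end

end Pool.Agent.VN
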